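import Pool.Agent.Helper17.Rg.Goals
import Pool.Agent.Helper66.Rig.Obs2

set_option autoImplicit false

namespace Pool.Agent.Helper81.Rg

open Pool.Agent.Helper17.Rg Pool.Agent.Helper66.Rig

theorem one_sub_cos_le (x : ℝ) : 1 - Real.cos (2 * Real.pi * x) ≤ 20 * di x ^ 2 := by
  have h1 : Real.cos (2 * Real.pi * x) = Real.cos (2 * Real.pi * (x - round x)) := by
    have : 2 * Real.pi * x = 2 * Real.pi * (x - round x) + (round x : ℤ) * (2 * Real.pi) := by ring
    rw [this, Real.cos_add_int_mul_two_pi]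
  have h2 := Real.one_sub_sq_div_two_le_cos (x := 2 * Real.pi * (x - round x))
  have h3 : di x ^ 2 = (x - round x) ^ 2 := by
    unfold di
    rw [sq_abs]
  have h4 : Real.pi ^ 2 ≤ 10 := by nlinarith [Real.pi_lt_d2, Real.pi_pos]
  have h5 : (2 * Real.pi * (x - round x)) ^ 2 / 2 = 2 * Real.pi ^ 2 * (x - round x) ^ 2 := by ring
  rw [h1, h3]
  rw [h5] at h2
  have h6 : 2 * Real.pi ^ 2 * (x - round x) ^ 2 ≤ 20 * (x - round x) ^ 2 :=
    mul_le_mul_of_nonneg_right (by linarith) (sq_nonneg _)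
  linarith

theorem ptSum_aux (h1 : PtBad) (h2 : OneBad) (h3 : CosBad) (C M : ℝ) (hM : 1 ≤ M)
    (hC : Real.log 6 / Real.log 2 < C) : ∃ N0 : ℕ, ∀ N : ℕ, N0 ≤ N → ∀ x : ℝ,
    M * (1 - Real.cos (2 * Real.pi * x)) ≤
      ∑ k ∈ Finset.Icc N ⌊C * N⌋₊, (1 - Real.cos (2 * Real.pi * ((2 ^ k + 3 ^ k) * x))) := by
  have hM0 : (0 : ℝ) < M := by linarith
  have hκ : (0 : ℝ) < 1 / (80 * M) := by positivity
  obtain ⟨N1, hN1⟩ := h1 C (1 / (80 * M)) ⌈512 * M⌉₊ hC hκ
  obtain ⟨N2, hN2⟩ := h2 C hC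
  obtain ⟨N3, hN3⟩ := pow_unbounded_of_one_lt (20 * M) (one_lt_two : (1 : ℝ) < 2)
  have hC1 : 1 < C := by
    refine lt_trans ?_ hC
    rw [one_lt_div (Real.log_pos one_lt_two)]
    exact Real.log_lt_log (by norm_num) (by norm_num)
  refine ⟨max (max N1 N2) (max N3 2), fun N hN x => ?_⟩
  have hNN1 : N1 ≤ N := le_trans (le_trans (le_max_left _ _) (le_max_left _ _)) hN
  have hNN2 : N2 ≤ N := le_trans (le_trans (le_max_right _ _) (le_max_left _ _)) hN
  have hNN3 : N3 ≤ N := le_trans (le_trans (le_max_left _ _) (le_max_right _ _)) hN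
  have hNN4 : 2 ≤ N := le_trans (le_trans (le_max_right _ _) (le_max_right _ _)) hN
  have hNR : (0 : ℝ) < (N : ℝ) := by exact_mod_cast (by omega : 0 < N)
  have hNfl : N ≤ ⌊C * N⌋₊ := by
    apply Nat.le_floor
    nlinarith
  have hL : ⌊C * N⌋₊ - 1 + 1 = ⌊C * N⌋₊ := by omega
  have hcos := h3 x N (⌊C * N⌋₊ - 1)
  rw [hL] at hcos
  have hc2 : 1 - Real.cos (2 * Real.pi * x) ≤ 2 := by
    have := Real.neg_one_le_cos (2 * Real.pi * x)
    linarith
  have hc20 := one_sub_cos_le x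
  have hdi0 : 0 ≤ di x := abs_nonneg _
  rcases le_or_gt (1 / (80 * M)) (di x) with hx | hx
  · have h4 := hN1 N hNN1 x hx
    have h5 : (512 * M : ℝ) ≤ (nb x N (⌊C * N⌋₊ - 1) : ℝ) :=
      le_trans (Nat.le_ceil _) (by exact_mod_cast h4)
    have h6 : M * (1 - Real.cos (2 * Real.pi * x)) ≤ M * 2 := mul_le_mul_of_nonneg_left hc2 hM0.le
    linarith
  · rcases le_or_gt (1 / (6 : ℝ) ^ N) (di x) with hy | hy
    · have h4 := hN2 N hNN2 x hy
      have h5 : (1 : ℝ) ≤ (nb x N (⌊C * N⌋₊ - 1) : ℝ) := by exact_mod_cast h4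
      have h6 : di x ^ 2 ≤ (1 / (80 * M)) ^ 2 := pow_le_pow_left₀ hdi0 hx.le 2
      have h7 : M * (1 - Real.cos (2 * Real.pi * x)) ≤ M * (20 * (1 / (80 * M)) ^ 2) :=
        mul_le_mul_of_nonneg_left (by linarith) hM0.le
      have h8 : M * (20 * (1 / (80 * M)) ^ 2) = 1 / (320 * M) := by
        field_simp
        norm_num
      have h9 : 1 / (320 * M) ≤ 1 / 256 := by
        apply one_div_le_one_div_of_le (by norm_num)
        linarith
      linarith
    · have hn2 : (4 : ℝ) ≤ 2 ^ N := by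
        calc (4 : ℝ) = 2 ^ 2 := by norm_num
          _ ≤ 2 ^ N := pow_le_pow_right₀ (by norm_num) hNN4
      have hn3 : (2 : ℝ) ^ N ≤ 3 ^ N := pow_le_pow_left₀ (by norm_num) (by norm_num) N
      have hn6 : (6 : ℝ) ^ N = 2 ^ N * 3 ^ N := by
        rw [← mul_pow]
        norm_num
      set n : ℝ := (2 : ℝ) ^ N + 3 ^ N with hn
      have hnpos : 0 < n := by positivity
      set z : ℤ := round x with hz
      set y : ℝ := n * (x - z) with hyd
      have hyabs : |y| = n * di x := by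
        rw [hyd, abs_mul, abs_of_pos hnpos]
        rfl
      have hylt : |y| < 1 / 2 := by
        rw [hyabs]
        have h6p : (0 : ℝ) < 6 ^ N := by positivity
        have h5 : n * di x < n * (1 / 6 ^ N) := mul_lt_mul_of_pos_left hy hnpos
        have h6 : n * (1 / 6 ^ N) ≤ 1 / 2 := by
          rw [mul_one_div, div_le_iff₀ h6p, hn6]
          have h3p : (0 : ℝ) < 3 ^ N := by positivity
          have h7 : (4 : ℝ) * 3 ^ N ≤ 2 ^ N * 3 ^ N := mul_le_mul_of_nonneg_right hn2 h3p.le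
          linarith
        linarith
      have hround : round y = 0 := by
        rw [round_eq_zero_iff]
        have := abs_lt.mp hylt
        exact ⟨by linarith [this.1], this.2⟩
      have h5 := one_sub_cos_ge y
      rw [hround] at h5
      have h6 : Real.cos (2 * Real.pi * (n * x)) = Real.cos (2 * Real.pi * y) := by
        have : 2 * Real.pi * (n * x)
            = 2 * Real.pi * y + (((2 ^ N + 3 ^ N) * z : ℤ) : ℝ) * (2 * Real.pi) := by
          push_cast
          rw [hyd, hn]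
          ring
        rw [this, Real.cos_add_int_mul_two_pi]
      have h7 : (1 - Real.cos (2 * Real.pi * ((2 ^ N + 3 ^ N) * x))) ≤
          ∑ k ∈ Finset.Icc N ⌊C * N⌋₊, (1 - Real.cos (2 * Real.pi * ((2 ^ k + 3 ^ k) * x))) := by
        refine Finset.single_le_sum (f := fun k : ℕ =>
          (1 - Real.cos (2 * Real.pi * (((2 : ℝ) ^ k + 3 ^ k) * x)))) (fun k _ => ?_)
          (Finset.mem_Icc.mpr ⟨le_refl _, hNfl⟩)
        have := Real.cos_le_one (2 * Real.pi * (((2 : ℝ) ^ k + 3 ^ k) * x))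
        linarith
      refine le_trans ?_ h7
      rw [← hn, h6]
      have h8 : y ^ 2 = n ^ 2 * di x ^ 2 := by
        rw [← sq_abs y, hyabs, mul_pow]
      have h9 : (20 : ℝ) * M ≤ n ^ 2 := by
        have h10 : (20 : ℝ) * M ≤ 2 ^ N :=
          le_trans hN3.le (pow_le_pow_right₀ (by norm_num) hNN3)
        have h11 : (2 : ℝ) ^ N ≤ n := by
          rw [hn]
          have : (0 : ℝ) < 3 ^ N := by positivity
          linarith
        have h12 : 1 ≤ n := by linarith
        nlinarith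
      have h10 : M * (1 - Real.cos (2 * Real.pi * x)) ≤ M * (20 * di x ^ 2) :=
        mul_le_mul_of_nonneg_left hc20 hM0.le
      have h11 : M * (20 * di x ^ 2) = (20 * M) * di x ^ 2 := by ring
      have h12 : (20 * M) * di x ^ 2 ≤ n ^ 2 * di x ^ 2 :=
        mul_le_mul_of_nonneg_right h9 (sq_nonneg _)
      have h13 : 8 * (y - ((0 : ℤ) : ℝ)) ^ 2 = 8 * (n ^ 2 * di x ^ 2) := by
        rw [Int.cast_zero, sub_zero, h8]
      rw [h13] at h5
      have h14 : 0 ≤ n ^ 2 * di x ^ 2 := by positivity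
      linarith

theorem ptSum (h1 : PtBad) (h2 : OneBad) (h3 : CosBad) : PtSum := by
  intro C M hC
  obtain ⟨N0, hN0⟩ := ptSum_aux h1 h2 h3 C (max M 1) (le_max_right _ _) hC
  refine ⟨N0, fun N hN x => le_trans ?_ (hN0 N hN x)⟩
  refine mul_le_mul_of_nonneg_right (le_max_left _ _) ?_
  have := Real.cos_le_one (2 * Real.pi * x)
  linarith

end Pool.Agent.Helper81.Rg
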